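import Mathlib

set_option autoImplicit false

open Filter Finset

namespace Pool.Agent.Results.MP_5e019f_nt.LogExcess

/-- No product of `k` pairwise distinct elements of `A` is a perfect `d`-th power. -/
def Admissible (k d : ℕ) (A : Finset ℕ) : Prop :=
  ∀ B ⊆ A, B.card = k → ∀ x : ℕ, 0 < x → ∏ b ∈ B, b ≠ x ^ d

open Classical in
/-- `F k d n`: the largest size of a set `A ⊆ {1, …, n}` such that no product of `k` pairwise
distinct elements of `A` is a perfect `d`-th power. -/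
noncomputable def F (k d n : ℕ) : ℕ :=
  ((Finset.Icc 1 n).powerset.filter (Admissible k d)).sup Finset.card

/-! ### The combinatorial core -/

lemma fac_cases {d j : ℕ} {u v p : ℕ} (hu : Squarefree u)
    (hv : Squarefree v) (hp : p.Prime) (hpu : ¬ p ∣ u) (hpv : ¬ p ∣ v) (q : ℕ) :
    (u * p ^ j * v ^ (d - 1)).factorization q =
      u.factorization q + (if q = p then j else 0) + (d - 1) * v.factorization q ∧
    u.factorization q ≤ 1 ∧ v.factorization q ≤ 1 ∧
    (q = p → u.factorization q = 0 ∧ v.factorization q = 0) := by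
  have hu0 : u ≠ 0 := hu.ne_zero
  have hv0 : v ≠ 0 := hv.ne_zero
  have hp0 : p ≠ 0 := hp.ne_zero
  refine ⟨?_, hu.natFactorization_le_one q, hv.natFactorization_le_one q, ?_⟩
  · rw [Nat.factorization_mul (mul_ne_zero hu0 (pow_ne_zero _ hp0)) (pow_ne_zero _ hv0),
      Nat.factorization_mul hu0 (pow_ne_zero _ hp0), Nat.factorization_pow,
      Nat.factorization_pow, hp.factorization]
    simp only [Finsupp.coe_add, Pi.add_apply, Finsupp.coe_smul, Pi.smul_apply, smul_eq_mul]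
    by_cases hq : q = p
    · subst hq; simp
    · have : (Finsupp.single p 1 : ℕ →₀ ℕ) q = 0 := by
        rw [Finsupp.single_apply, if_neg (Ne.symm hq)]
      simp [hq, this]
  · rintro rfl
    exact ⟨Nat.factorization_eq_zero_of_not_dvd hpu, Nat.factorization_eq_zero_of_not_dvd hpv⟩

/-- Admissible triples `(u, p, v)`. -/
def Good (t : ℕ × ℕ × ℕ) : Prop :=
  Squarefree t.1 ∧ Squarefree t.2.2 ∧ t.2.1.Prime ∧ ¬ t.2.1 ∣ t.1 ∧ ¬ t.2.1 ∣ t.2.2

lemma inj_form {d j : ℕ} (hj : 2 ≤ j) (hjd : j + 2 ≤ d) {t t' : ℕ × ℕ × ℕ}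
    (ht : Good t) (ht' : Good t')
    (h : t.1 * t.2.1 ^ j * t.2.2 ^ (d - 1) = t'.1 * t'.2.1 ^ j * t'.2.2 ^ (d - 1)) : t = t' := by
  obtain ⟨u, p, v⟩ := t
  obtain ⟨u', p', v'⟩ := t'
  obtain ⟨hu, hv, hp, hpu, hpv⟩ := ht
  obtain ⟨hu', hv', hp', hpu', hpv'⟩ := ht'
  simp only at hu hv hp hpu hpv hu' hv' hp' hpu' hpv' h
  have key := fun q => fac_cases (d := d) (j := j) hu hv hp hpu hpv q
  have key' := fun q => fac_cases (d := d) (j := j) hu' hv' hp' hpu' hpv' q
  have hpp : p = p' := by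
    by_contra hne
    obtain ⟨h1, -, -, h4⟩ := key p
    obtain ⟨h1', h2', h3', -⟩ := key' p
    rw [h, h1'] at h1
    rw [(h4 rfl).1, (h4 rfl).2, if_pos rfl, if_neg hne] at h1
    have hfv : v'.factorization p = 0 ∨ v'.factorization p = 1 := by omega
    rcases hfv with h0 | h0 <;> rw [h0] at h1 <;> omega
  subst hpp
  have hq : ∀ q, u.factorization q = u'.factorization q ∧ v.factorization q = v'.factorization q := by
    intro q
    obtain ⟨h1, h2, h3, -⟩ := key q
    obtain ⟨h1', h2', h3', -⟩ := key' q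
    rw [h, h1'] at h1
    have hfv : v.factorization q = 0 ∨ v.factorization q = 1 := by omega
    have hfv' : v'.factorization q = 0 ∨ v'.factorization q = 1 := by omega
    rcases hfv with h0 | h0 <;> rcases hfv' with h0' | h0' <;> rw [h0, h0'] at h1 <;>
      refine ⟨?_, ?_⟩ <;> omega
  have e1 : u = u' := Nat.eq_of_factorization_eq hu.ne_zero hu'.ne_zero fun q => (hq q).1
  have e2 : v = v' := Nat.eq_of_factorization_eq hv.ne_zero hv'.ne_zero fun q => (hq q).2
  rw [e1, e2]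

lemma exists_optimal (k d n : ℕ) (hk : 0 < k) :
    ∃ A : Finset ℕ, A ⊆ Finset.Icc 1 n ∧ Admissible k d A ∧ A.card = F k d n := by
  classical
  have hne : ((Finset.Icc 1 n).powerset.filter (Admissible k d)).Nonempty := by
    refine ⟨∅, ?_⟩
    simp only [Finset.mem_filter, Finset.mem_powerset, Finset.empty_subset, true_and]
    intro B hB hc
    have : B = ∅ := Finset.subset_empty.mp hB
    subst this
    simp at hc
    omega
  obtain ⟨A, hA, hAc⟩ := Finset.exists_mem_eq_sup _ hne Finset.card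
  simp only [Finset.mem_filter, Finset.mem_powerset] at hA
  refine ⟨A, hA.1, hA.2, ?_⟩
  unfold F
  convert hAc.symm

lemma card_triples_le {d : ℕ} (hd : 4 ≤ d) (n : ℕ) (T : Finset (ℕ × ℕ × ℕ))
    (hT : ∀ t ∈ T, Good t ∧ t.1 ≠ t.2.2 ∧ t.1 * t.2.1 ^ 2 * t.2.2 ^ (d - 1) ≤ n ∧
      t.2.2 * t.2.1 ^ (d - 2) * t.1 ^ (d - 1) ≤ n) :
    (T.card : ℝ) ≤ 2 * ((n : ℝ) - F 2 d n) := by
  classical
  obtain ⟨A, hA, hadm, hcard⟩ := exists_optimal 2 d n (by norm_num)
  set D := Finset.Icc 1 n \ A with hD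
  have hDcard : (D.card : ℝ) = (n : ℝ) - F 2 d n := by
    have h1 : D.card + A.card = n := by
      rw [hD, Finset.card_sdiff_add_card_eq_card hA, Nat.card_Icc]; simp
    have h2 : ((D.card + A.card : ℕ) : ℝ) = n := by rw [h1]
    push_cast at h2
    rw [← hcard]; linarith
  let fa : ℕ × ℕ × ℕ → ℕ := fun t => t.1 * t.2.1 ^ 2 * t.2.2 ^ (d - 1)
  let fb : ℕ × ℕ × ℕ → ℕ := fun t => t.2.2 * t.2.1 ^ (d - 2) * t.1 ^ (d - 1)
  have hcover : T ⊆ T.filter (fun t => fa t ∈ D) ∪ T.filter (fun t => fb t ∈ D) := by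
    intro t ht
    obtain ⟨⟨hu, hv, hp, hpu, hpv⟩, hne, ha, hb⟩ := hT t ht
    obtain ⟨u, p, v⟩ := t
    simp only at hu hv hp hpu hpv hne ha hb
    have hu0 : 0 < u := Nat.pos_of_ne_zero hu.ne_zero
    have hv0 : 0 < v := Nat.pos_of_ne_zero hv.ne_zero
    have hp0 : 0 < p := hp.pos
    rw [Finset.mem_union, Finset.mem_filter, Finset.mem_filter]
    by_contra hcon
    rw [not_or, not_and, not_and] at hcon
    have hA1 : fa (u, p, v) ∈ A := by
      by_contra hnot
      exact hcon.1 ht (Finset.mem_sdiff.mpr ⟨Finset.mem_Icc.mpr ⟨by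
        show 0 < u * p ^ 2 * v ^ (d - 1)
        positivity, ha⟩, hnot⟩)
    have hB1 : fb (u, p, v) ∈ A := by
      by_contra hnot
      exact hcon.2 ht (Finset.mem_sdiff.mpr ⟨Finset.mem_Icc.mpr ⟨by
        show 0 < v * p ^ (d - 2) * u ^ (d - 1)
        positivity, hb⟩, hnot⟩)
    have hab : fa (u, p, v) ≠ fb (u, p, v) := by
      intro heq
      -- compare with the triple `(v, p, u)` at each prime
      have key := fun q => fac_cases (d := d) (j := 2) hu hv hp hpu hpv q
      have key' := fun q => fac_cases (d := d) (j := d - 2) hv hu hp hpv hpu q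
      apply hne
      refine Nat.eq_of_factorization_eq hu.ne_zero hv.ne_zero fun q => ?_
      obtain ⟨h1, h2, h3, h4⟩ := key q
      obtain ⟨h1', -, -, -⟩ := key' q
      have heq' : u * p ^ 2 * v ^ (d - 1) = v * p ^ (d - 2) * u ^ (d - 1) := heq
      rw [heq', h1'] at h1
      by_cases hqp : q = p
      · rw [(h4 hqp).1, (h4 hqp).2]
      · rw [if_neg hqp, if_neg hqp] at h1
        have hfu : u.factorization q = 0 ∨ u.factorization q = 1 := by omega
        have hfv : v.factorization q = 0 ∨ v.factorization q = 1 := by omega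
        rcases hfu with h0 | h0 <;> rcases hfv with h0' | h0' <;> rw [h0, h0'] at h1 ⊢ <;> omega
    have hprod := hadm {fa (u, p, v), fb (u, p, v)} (by
      intro x hx
      rw [Finset.mem_insert, Finset.mem_singleton] at hx
      rcases hx with rfl | rfl
      · exact hA1
      · exact hB1) (Finset.card_pair hab) (u * p * v) (by positivity)
    apply hprod
    rw [Finset.prod_pair hab]
    show u * p ^ 2 * v ^ (d - 1) * (v * p ^ (d - 2) * u ^ (d - 1)) = (u * p * v) ^ d
    obtain ⟨m, rfl⟩ : ∃ m, d = m + 4 := ⟨d - 4, by omega⟩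
    have e1 : m + 4 - 1 = m + 3 := by omega
    have e2 : m + 4 - 2 = m + 2 := by omega
    rw [e1, e2]
    ring
  have h1 : (T.filter (fun t => fa t ∈ D)).card ≤ D.card := by
    refine Finset.card_le_card_of_injOn fa ?_ ?_
    · intro t ht
      exact (Finset.mem_filter.mp (Finset.mem_coe.mp ht)).2
    · intro t ht t' ht' heq
      have ht1 := (Finset.mem_filter.mp (Finset.mem_coe.mp ht)).1
      have ht1' := (Finset.mem_filter.mp (Finset.mem_coe.mp ht')).1
      exact inj_form (d := d) (j := 2) le_rfl (by omega) (hT t ht1).1 (hT t' ht1').1 heq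
  have h2 : (T.filter (fun t => fb t ∈ D)).card ≤ D.card := by
    refine Finset.card_le_card_of_injOn fb ?_ ?_
    · intro t ht
      exact (Finset.mem_filter.mp (Finset.mem_coe.mp ht)).2
    · intro t ht t' ht' heq
      have ht1 := (hT t (Finset.mem_filter.mp (Finset.mem_coe.mp ht)).1).1
      have ht1' := (hT t' (Finset.mem_filter.mp (Finset.mem_coe.mp ht')).1).1
      have hs : Good (t.2.2, t.2.1, t.1) := ⟨ht1.2.1, ht1.1, ht1.2.2.1, ht1.2.2.2.2, ht1.2.2.2.1⟩
      have hs' : Good (t'.2.2, t'.2.1, t'.1) :=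
        ⟨ht1'.2.1, ht1'.1, ht1'.2.2.1, ht1'.2.2.2.2, ht1'.2.2.2.1⟩
      have := inj_form (d := d) (j := d - 2) (by omega) (by omega) hs hs' heq
      simp only [Prod.mk.injEq] at this
      ext <;> simp [this]
  have h3 : T.card ≤ D.card + D.card :=
    (Finset.card_le_card hcover).trans ((Finset.card_union_le _ _).trans (add_le_add h1 h2))
  have h4 : (T.card : ℝ) ≤ D.card + D.card := by exact_mod_cast h3
  rw [← hDcard]; linarith

/-! ### Counting squarefree numbers -/

lemma sum_inv_sq_le (X : ℕ) : ∑ j ∈ Finset.Icc 2 X, (1 : ℝ) / (j : ℝ) ^ 2 ≤ 3 / 4 := by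
  have key : ∀ m : ℕ, ∑ j ∈ Finset.Icc 2 (m + 2), (1 : ℝ) / (j : ℝ) ^ 2 ≤
      3 / 4 - 1 / ((m : ℝ) + 2) + 0 := by
    intro m
    induction m with
    | zero => norm_num
    | succ m ih =>
      rw [Finset.sum_Icc_succ_top (by omega)]
      have h1 : (1 : ℝ) / ((m + 2 + 1 : ℕ) : ℝ) ^ 2 ≤ 1 / ((m : ℝ) + 2) - 1 / ((m : ℝ) + 3) := by
        rw [div_sub_div _ _ (by positivity) (by positivity),
          div_le_div_iff₀ (by positivity) (by positivity)]
        push_cast
        nlinarith [sq_nonneg (m : ℝ)]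
      have h2 : ((m + 1 : ℕ) : ℝ) + 2 = (m : ℝ) + 3 := by push_cast; ring
      rw [h2]
      have h3 : m + 1 + 2 = m + 2 + 1 := by ring
      simp only [h3] at *
      linarith
  rcases Nat.lt_or_ge X 2 with h | h
  · rw [Finset.Icc_eq_empty (by omega)]; norm_num
  · obtain ⟨m, rfl⟩ : ∃ m, X = m + 2 := ⟨X - 2, by omega⟩
    have := key m
    have h2 : (0 : ℝ) ≤ 1 / ((m : ℝ) + 2) := by positivity
    linarith

open Classical in
/-- Squarefree numbers up to `X` not divisible by `p`. -/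
noncomputable def S (p X : ℕ) : Finset ℕ :=
  (Finset.Icc 1 X).filter (fun u => Squarefree u ∧ ¬ p ∣ u)

lemma card_S_ge {p : ℕ} (hp : 5 ≤ p) (X : ℕ) : (X : ℝ) / 20 ≤ (S p X).card := by
  classical
  have hcover : Finset.Icc 1 X ⊆ S p X ∪ ((Finset.Icc 2 X).biUnion
      (fun j => (Finset.Ioc 0 X).filter (fun x => j ^ 2 ∣ x)) ∪
      (Finset.Ioc 0 X).filter (fun x => p ∣ x)) := by
    intro x hx
    rw [Finset.mem_Icc] at hx
    rw [Finset.mem_union, Finset.mem_union]
    by_cases h1 : p ∣ x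
    · right; right
      rw [Finset.mem_filter, Finset.mem_Ioc]
      exact ⟨⟨hx.1, hx.2⟩, h1⟩
    by_cases h2 : Squarefree x
    · left
      unfold S
      rw [Finset.mem_filter, Finset.mem_Icc]
      exact ⟨hx, h2, h1⟩
    · right; left
      rw [Nat.squarefree_iff_prime_squarefree] at h2
      push Not at h2
      obtain ⟨q, hq, hqx⟩ := h2
      rw [Finset.mem_biUnion]
      have hqx' : q ^ 2 ∣ x := by rw [pow_two]; exact hqx
      refine ⟨q, ?_, ?_⟩
      · rw [Finset.mem_Icc]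
        refine ⟨hq.two_le, ?_⟩
        calc q ≤ q * q := Nat.le_mul_self q
          _ ≤ x := Nat.le_of_dvd hx.1 hqx
          _ ≤ X := hx.2
      · rw [Finset.mem_filter, Finset.mem_Ioc]
        exact ⟨⟨hx.1, hx.2⟩, hqx'⟩
  have h1 := (Finset.card_le_card hcover).trans ((Finset.card_union_le _ _).trans
    (add_le_add le_rfl ((Finset.card_union_le _ _).trans (add_le_add Finset.card_biUnion_le le_rfl))))
  rw [Nat.card_Icc, Nat.add_sub_cancel] at h1
  simp only [Nat.Ioc_filter_dvd_card_eq_div] at h1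
  have h2 : (X : ℝ) ≤ (S p X).card + ((∑ j ∈ Finset.Icc 2 X, ((X / j ^ 2 : ℕ) : ℝ)) +
      ((X / p : ℕ) : ℝ)) := by exact_mod_cast h1
  have h3 : ∑ j ∈ Finset.Icc 2 X, ((X / j ^ 2 : ℕ) : ℝ) ≤ X * (3 / 4) := by
    calc ∑ j ∈ Finset.Icc 2 X, ((X / j ^ 2 : ℕ) : ℝ)
        ≤ ∑ j ∈ Finset.Icc 2 X, (X : ℝ) * (1 / (j : ℝ) ^ 2) := by
          refine Finset.sum_le_sum fun j _ => ?_
          refine (Nat.cast_div_le).trans (le_of_eq ?_)
          push_cast
          ring
      _ = X * ∑ j ∈ Finset.Icc 2 X, (1 / (j : ℝ) ^ 2) := by rw [Finset.mul_sum]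
      _ ≤ X * (3 / 4) := by
          exact mul_le_mul_of_nonneg_left (sum_inv_sq_le X) (Nat.cast_nonneg X)
  have h4 : ((X / p : ℕ) : ℝ) ≤ X / 5 := by
    refine (Nat.cast_div_le).trans ?_
    have : (5 : ℝ) ≤ p := by exact_mod_cast hp
    exact div_le_div_of_nonneg_left (Nat.cast_nonneg X) (by norm_num) this
  linarith

/-! ### The box of pairs attached to one prime -/

lemma floor_ge_half {x : ℝ} (hx : 1 ≤ x) : x / 2 ≤ (⌊x⌋₊ : ℝ) := by
  have h1 : (1 : ℝ) ≤ (⌊x⌋₊ : ℝ) := by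
    have : 1 ≤ ⌊x⌋₊ := Nat.le_floor (by simpa using hx)
    exact_mod_cast this
  have h2 : x < (⌊x⌋₊ : ℝ) + 1 := Nat.lt_floor_add_one x
  linarith

/-- Triples attached to the prime `p`. -/
noncomputable def Tp (p X Y : ℕ) : Finset (ℕ × ℕ × ℕ) :=
  (((S p X) ×ˢ (S p Y)).filter (fun w => w.1 ≠ w.2)).image (fun w => (w.1, p, w.2))

lemma card_Tp_ge {p : ℕ} (hp : 5 ≤ p) (X Y : ℕ) :
    (X : ℝ) / 20 * ((Y : ℝ) / 20) - Y ≤ (Tp p X Y).card := by
  classical
  unfold Tp
  rw [Finset.card_image_of_injective _ (by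
    intro w w' h
    simp only [Prod.mk.injEq, true_and] at h
    exact Prod.ext h.1 h.2)]
  have h1 : ((S p X) ×ˢ (S p Y)).card =
      (((S p X) ×ˢ (S p Y)).filter (fun w => w.1 ≠ w.2)).card +
      (((S p X) ×ˢ (S p Y)).filter (fun w => ¬ w.1 ≠ w.2)).card :=
    (Finset.card_filter_add_card_filter_not _).symm
  have h2 : (((S p X) ×ˢ (S p Y)).filter (fun w => ¬ w.1 ≠ w.2)).card ≤ (S p Y).card := by
    refine Finset.card_le_card_of_injOn (fun w => w.2) ?_ ?_
    · intro w hw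
      have := (Finset.mem_filter.mp (Finset.mem_coe.mp hw)).1
      exact Finset.mem_coe.mpr (Finset.mem_product.mp this).2
    · intro w hw w' hw' heq
      have e1 := (Finset.mem_filter.mp (Finset.mem_coe.mp hw)).2
      have e2 := (Finset.mem_filter.mp (Finset.mem_coe.mp hw')).2
      rw [not_not] at e1 e2
      simp only at heq
      exact Prod.ext (by rw [e1, e2, heq]) heq
  have h3 : (S p Y).card ≤ Y := by
    unfold S
    refine (Finset.card_filter_le _ _).trans ?_
    simp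
  rw [Finset.card_product] at h1
  have h4 : ((S p X).card : ℝ) * (S p Y).card ≤
      (((S p X) ×ˢ (S p Y)).filter (fun w => w.1 ≠ w.2)).card + Y := by
    have : (S p X).card * (S p Y).card ≤
      (((S p X) ×ˢ (S p Y)).filter (fun w => w.1 ≠ w.2)).card + Y := by omega
    exact_mod_cast this
  have h5 : (X : ℝ) / 20 * ((Y : ℝ) / 20) ≤ ((S p X).card : ℝ) * (S p Y).card :=
    mul_le_mul (card_S_ge hp X) (card_S_ge hp Y) (by positivity) (by positivity)
  linarith

lemma mem_Tp {p X Y : ℕ} (hp : p.Prime) {t : ℕ × ℕ × ℕ} (ht : t ∈ Tp p X Y) :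
    Good t ∧ t.1 ≠ t.2.2 ∧ t.1 ≤ X ∧ t.2.1 = p ∧ t.2.2 ≤ Y := by
  classical
  unfold Tp at ht
  rw [Finset.mem_image] at ht
  obtain ⟨w, hw, rfl⟩ := ht
  rw [Finset.mem_filter, Finset.mem_product] at hw
  obtain ⟨⟨h1, h2⟩, h3⟩ := hw
  unfold S at h1 h2
  rw [Finset.mem_filter, Finset.mem_Icc] at h1 h2
  exact ⟨⟨h1.2.1, h2.2.1, hp, h1.2.2, h2.2.2⟩, h3, h1.1.2, rfl, h2.1.2⟩

/-- The real number `n ^ (1/d)`. -/
noncomputable def root (d n : ℕ) : ℝ := (n : ℝ) ^ ((1 : ℝ) / d)

lemma root_pow {d : ℕ} (hd : d ≠ 0) (n : ℕ) : root d n ^ d = n := by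
  unfold root
  rw [one_div]
  exact Real.rpow_inv_natCast_pow (Nat.cast_nonneg n) hd

lemma root_nonneg (d n : ℕ) : 0 ≤ root d n := Real.rpow_nonneg (Nat.cast_nonneg n) _

lemma tendsto_root {d : ℕ} (hd : d ≠ 0) : Tendsto (root d) atTop atTop := by
  unfold root
  have h : (0 : ℝ) < 1 / d := by positivity
  exact (tendsto_rpow_atTop h).comp tendsto_natCast_atTop_atTop

/-- For one prime `p ≥ 5` and large `n`: at least `n^(2/d)/(1600 p) - n^(1/d)` triples. -/
lemma exists_box {m p : ℕ} (hp : p.Prime) (hp5 : 5 ≤ p) :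
    ∃ B : ℝ, ∀ n : ℕ, B ≤ root (m + 4) n → ∃ X Y : ℕ,
      (∀ u ≤ X, ∀ v ≤ Y, u * p ^ 2 * v ^ (m + 4 - 1) ≤ n ∧
        v * p ^ (m + 4 - 2) * u ^ (m + 4 - 1) ≤ n) ∧
      root (m + 4) n ^ 2 * (1 / (1600 * (p : ℝ))) - root (m + 4) n ≤
        (Tp p X Y).card := by
  set P : ℝ := root (m + 2) p with hP
  have hPpow : P ^ (m + 2) = p := root_pow (by omega) p
  have hp1 : (1 : ℝ) ≤ p := by exact_mod_cast hp.one_lt.le
  have hP1 : 1 ≤ P := by
    rw [hP]; unfold root
    exact Real.one_le_rpow hp1 (by positivity)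
  have hP0 : 0 < P := by linarith
  refine ⟨P ^ (m + 1) + P, fun n hn => ?_⟩
  set N : ℝ := root (m + 4) n with hN
  have hNpow : N ^ (m + 4) = n := root_pow (by omega) n
  have hN0 : 0 < N := by
    have : 0 < P ^ (m + 1) := by positivity
    linarith
  set x : ℝ := N / P ^ (m + 1) with hx
  set y : ℝ := N / P with hy
  have hx1 : 1 ≤ x := by
    rw [hx, one_le_div (by positivity)]; linarith
  have hy1 : 1 ≤ y := by
    rw [hy, one_le_div (by positivity)]
    have : 0 < P ^ (m + 1) := by positivity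
    linarith
  have hx0 : 0 ≤ x := by linarith
  have hy0 : 0 ≤ y := by linarith
  refine ⟨⌊x⌋₊, ⌊y⌋₊, ?_, ?_⟩
  · intro u hu v hv
    have hu' : (u : ℝ) ≤ x := (Nat.cast_le.mpr hu).trans (Nat.floor_le hx0)
    have hv' : (v : ℝ) ≤ y := (Nat.cast_le.mpr hv).trans (Nat.floor_le hy0)
    have e1 : m + 4 - 1 = m + 3 := by omega
    have e2 : m + 4 - 2 = m + 2 := by omega
    rw [e1, e2]
    constructor
    · have : (u : ℝ) * (p : ℝ) ^ 2 * (v : ℝ) ^ (m + 3) ≤ n := by
        calc (u : ℝ) * (p : ℝ) ^ 2 * (v : ℝ) ^ (m + 3)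
            ≤ x * (p : ℝ) ^ 2 * y ^ (m + 3) := by gcongr
          _ = N ^ (m + 4) := by
            rw [← hPpow, hx, hy, div_pow]
            field_simp
            ring
          _ = n := hNpow
      exact_mod_cast this
    · have : (v : ℝ) * (p : ℝ) ^ (m + 2) * (u : ℝ) ^ (m + 3) ≤ n := by
        calc (v : ℝ) * (p : ℝ) ^ (m + 2) * (u : ℝ) ^ (m + 3)
            ≤ y * (p : ℝ) ^ (m + 2) * x ^ (m + 3) := by gcongr
          _ = N ^ (m + 4) := by
            rw [← hPpow, hx, hy, div_pow]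
            field_simp
            ring
          _ = n := hNpow
      exact_mod_cast this
  · refine le_trans ?_ (card_Tp_ge hp5 _ _)
    have h1 := floor_ge_half hx1
    have h2 := floor_ge_half hy1
    have h3 : (⌊y⌋₊ : ℝ) ≤ N := by
      refine (Nat.floor_le hy0).trans ?_
      rw [hy]; exact div_le_self hN0.le hP1
    have h4 : x / 2 * (y / 2) ≤ (⌊x⌋₊ : ℝ) * (⌊y⌋₊ : ℝ) :=
      mul_le_mul h1 h2 (by positivity) (by positivity)
    have h5 : x * y = N ^ 2 / p := by
      rw [← hPpow, hx, hy]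
      field_simp
      ring
    have h6 : N ^ 2 * (1 / (1600 * (p : ℝ))) = x / 2 * (y / 2) / 400 := by
      have : x / 2 * (y / 2) = x * y / 4 := by ring
      rw [this, h5]
      field_simp
      norm_num
    rw [h6]
    have h7 : (⌊x⌋₊ : ℝ) / 20 * ((⌊y⌋₊ : ℝ) / 20) = (⌊x⌋₊ : ℝ) * (⌊y⌋₊ : ℝ) / 400 := by ring
    rw [h7]
    linarith

/-- The lower bound for finitely many primes at once. -/
lemma lower_bound {m : ℕ} (Q : Finset ℕ) (hQ : ∀ p ∈ Q, p.Prime ∧ 5 ≤ p) :
    ∀ᶠ n : ℕ in atTop, root (m + 4) n ^ 2 * ((∑ p ∈ Q, (1 : ℝ) / p) / 1600) -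
      Q.card * root (m + 4) n ≤ 2 * ((n : ℝ) - F 2 (m + 4) n) := by
  classical
  choose! B hB using fun p (hp : p ∈ Q) => exists_box (m := m) (hQ p hp).1 (hQ p hp).2
  have hev : ∀ᶠ n : ℕ in atTop, ∀ p ∈ Q, B p ≤ root (m + 4) n := by
    rw [Filter.eventually_all_finset]
    intro p hp
    exact (tendsto_root (by omega)).eventually_ge_atTop (B p)
  filter_upwards [hev] with n hn
  choose! X Y hXY using fun p (hp : p ∈ Q) => hB p hp n (hn p hp)
  let T : Finset (ℕ × ℕ × ℕ) := Q.biUnion fun p => Tp p (X p) (Y p)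
  have hTcard : (T.card : ℝ) = ∑ p ∈ Q, ((Tp p (X p) (Y p)).card : ℝ) := by
    rw [Finset.card_biUnion]
    · push_cast; rfl
    · intro p hp q hq hpq
      refine Finset.disjoint_left.mpr ?_
      intro t ht ht'
      exact hpq ((mem_Tp (hQ p hp).1 ht).2.2.2.1.symm.trans (mem_Tp (hQ q hq).1 ht').2.2.2.1)
  have hT := card_triples_le (d := m + 4) (by omega) n T (by
    intro t ht
    rw [Finset.mem_biUnion] at ht
    obtain ⟨p, hp, htp⟩ := ht
    obtain ⟨h1, h2, h3, h4, h5⟩ := mem_Tp (hQ p hp).1 htp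
    have := (hXY p hp).1 t.1 h3 t.2.2 h5
    rw [← h4] at this
    exact ⟨h1, h2, this.1, this.2⟩)
  refine le_trans ?_ hT
  rw [hTcard]
  calc root (m + 4) n ^ 2 * ((∑ p ∈ Q, (1 : ℝ) / p) / 1600) - Q.card * root (m + 4) n
      = ∑ p ∈ Q, (root (m + 4) n ^ 2 * (1 / (1600 * (p : ℝ))) - root (m + 4) n) := by
        rw [Finset.sum_sub_distrib, Finset.sum_const, nsmul_eq_mul, ← Finset.mul_sum]
        congr 2
        rw [Finset.sum_div]
        refine Finset.sum_congr rfl fun p _ => ?_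
        rw [div_div, mul_comm]
    _ ≤ _ := Finset.sum_le_sum fun p hp => (hXY p hp).2

/-- The sum of the reciprocals of the primes `≥ 5` is unbounded. -/
lemma exists_primes (M : ℝ) :
    ∃ Q : Finset ℕ, (∀ p ∈ Q, p.Prime ∧ 5 ≤ p) ∧ M ≤ ∑ p ∈ Q, (1 : ℝ) / p := by
  classical
  have h := not_summable_one_div_on_primes
  rw [not_summable_iff_tendsto_nat_atTop_of_nonneg (by
    intro n
    exact Set.indicator_nonneg (fun _ _ => by positivity) n)] at h
  obtain ⟨K, hK⟩ := (h.eventually_ge_atTop (M + 5)).exists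
  refine ⟨(Finset.range K).filter (fun p => p.Prime ∧ 5 ≤ p), ?_, ?_⟩
  · intro p hp
    exact (Finset.mem_filter.mp hp).2
  · rw [Finset.sum_filter]
    have h1 : ∑ i ∈ Finset.range K, Set.indicator {p : ℕ | p.Prime} (fun n : ℕ => (1 : ℝ) / n) i ≤
        ∑ i ∈ Finset.range K, ((if i.Prime ∧ 5 ≤ i then (1 : ℝ) / i else 0) +
          (if i < 5 then 1 else 0)) := by
      refine Finset.sum_le_sum fun i _ => ?_
      rw [Set.indicator_apply]
      by_cases hi : i.Prime
      · rw [if_pos (show i ∈ {p : ℕ | p.Prime} from hi)]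
        by_cases h5 : 5 ≤ i
        · rw [if_pos ⟨hi, h5⟩, if_neg (by omega)]; simp
        · rw [if_neg (fun h => h5 h.2), if_pos (by omega)]
          have : (1 : ℝ) ≤ i := by exact_mod_cast hi.one_lt.le
          rw [zero_add, div_le_one (by linarith)]
          exact this
      · rw [if_neg (show i ∉ {p : ℕ | p.Prime} from hi)]
        split_ifs <;> positivity
    rw [Finset.sum_add_distrib] at h1
    have h2 : ∑ i ∈ Finset.range K, (if i < 5 then (1 : ℝ) else 0) ≤ 5 := by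
      rw [← Finset.sum_filter, Finset.sum_const, nsmul_eq_mul, mul_one]
      have : ((Finset.range K).filter (fun i => i < 5)).card ≤ 5 := by
        calc ((Finset.range K).filter (fun i => i < 5)).card ≤ (Finset.range 5).card := by
              refine Finset.card_le_card fun i hi => ?_
              rw [Finset.mem_filter] at hi
              exact Finset.mem_range.mpr hi.2
          _ = 5 := by simp
      exact_mod_cast this
    linarith

/-- **Theorem.** For every `d ≥ 4`, `(n - F_{2,d}(n)) / n^{2/d} → ∞` as `n → ∞`. Hence the bounds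
`c n^{k/d} ≤ n - F_{k,d}(n) ≤ n - f_{k,d}(n) ≤ C n^{k/d}` of Q1 fail for `k = 2` and every
`d ≥ 4`. -/
theorem result :
    ∀ d : ℕ, 4 ≤ d →
      Tendsto (fun n : ℕ => ((n : ℝ) - F 2 d n) / (n : ℝ) ^ ((2 : ℝ) / d)) atTop atTop := by
  intro d hd
  obtain ⟨m, rfl⟩ : ∃ m, d = m + 4 := ⟨d - 4, by omega⟩
  rw [tendsto_atTop]
  intro K
  obtain ⟨Q, hQ, hsum⟩ := exists_primes (3200 * (K + 1))
  have hlb := lower_bound (m := m) Q hQ
  have hroot : Tendsto (root (m + 4)) atTop atTop := tendsto_root (by omega)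
  filter_upwards [hlb, hroot.eventually_ge_atTop ((Q.card : ℝ) + 1)] with n h1 h2
  have hN0 : 0 < root (m + 4) n := by
    have : (0 : ℝ) ≤ Q.card := Nat.cast_nonneg _
    linarith
  have hpow : (n : ℝ) ^ ((2 : ℝ) / (m + 4 : ℕ)) = root (m + 4) n ^ 2 := by
    unfold root
    rw [← Real.rpow_natCast, ← Real.rpow_mul (Nat.cast_nonneg n)]
    congr 1
    push_cast
    ring
  rw [hpow, le_div_iff₀ (by positivity)]
  set N := root (m + 4) n with hN
  have h3 : (Q.card : ℝ) * N ≤ N ^ 2 := by nlinarith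
  have h4 : N ^ 2 * (3200 * (K + 1) / 1600) ≤ N ^ 2 * ((∑ p ∈ Q, (1 : ℝ) / p) / 1600) := by
    gcongr
  nlinarith [sq_nonneg N]

end Pool.Agent.Results.MP_5e019f_nt.LogExcess
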